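import Pool.Agent.KS6_94.AI.Final

/-!
# Automatic homeomorphicity for all structures with an interpretation in `(ℕ, =)`

The question asks about the polymorphism clones of the structures with domain `ℕ` that are
first-order definable in `(ℕ, =)` and about clone isomorphisms onto closed clones on `ℕ`. Here the
answer is given for all structures that have a first-order interpretation in `(ℕ, =)`, of any
dimension and with parameters, and for closed clones on sets of arbitrary size:

* the polymorphism clone of such a structure with infinite domain has automatic homeomorphicity
  with respect to the closed clones on a set `Y` if and only if `Y` has fewer than `2^ℵ₀` elements;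
* the same for every closed clone on an infinite set `Ω` that contains the permutations given by an
  action of `Sym(ℕ)` on `Ω` with finitely many orbits in which every point has a finite support;
* the same for every closed clone on `ℕ` that contains all permutations preserving a given
  partition of `ℕ` into finitely many (finite or infinite) classes.

Outline of the proof. Let `ξ : C → D` be an isomorphism onto a closed clone on a set `Y` of size
less than `2^ℵ₀`. The monoid of the injections `ℕ → ℕ` acts on `Ω` and, through `ξ`, on `Y`.
(1) Every `y ∈ Y` has a finite support: by Cantor's theorem two injections from a family of size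
`2^ℵ₀` act on `y` in the same way, so coinfinite injections act on `y` through their restrictions
to a finite set; as `D` is closed, the pointwise limit of the coinfinite injections `e_k` with
`e_k(x) = x` for `x ≤ k` is the action of some `u ∈ C`, and `e_0 u = e_0` gives `u = id`.
(2) `ξ` is continuous: let `f_i → f` and fix a tuple `y`. By Ramsey's theorem there are injections
`h_i`, the identity on a support of `y`, such that the operations `f_i h_i` are of one type, that
is `f_i h_i = π_i c` with a fixed `c`, so that `ξ(f_i)(y)` is `π_i` applied to `w = ξ(c)(y)`. Glue
`f_i h_i` and `f_i` along the two halves of the index set and take a limit `g` of these operations,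
up to the injections. One half of `g` has the type of `c` and the other one that of `f`. As both
halves have the same value at `y`, a minimal support of `w` is contained in the values of the second
half, and this shows that `π_i w = ξ(f)(y)` eventually.
(3) The inverse is continuous: if `ξ(f_i)` converges and an index `a_i` of `f_i(t)` tends to
infinity, let `g` be a limit of `σ_i f_i` for suitable injections `σ_i`, and change `σ_i` at `a_i` only:
the new injections `σ'_i` act on the limits of `ξ(f_i)(y)` as before, so the limit `g' ≠ g` of
`σ'_i f_i` has the same image under `ξ`, a contradiction.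
(4) If `Y` has at least `2^ℵ₀` elements, the clone acts on the algebra of its terms in `|Y|` variables,
a closed discrete clone on a set of size `|Y|`.
-/

set_option autoImplicit false

namespace Pool.Agent.Results.MP_0c3240_lc.InterpretableInEquality

open Cardinal Pool.Agent.KS6_94.AI

universe u

/-- `AutoHomeo C Y`: every clone isomorphism from `C` onto a topologically closed clone on the set
`Y` is a homeomorphism. `𝔠` is the cardinality of the continuum.
(1) Structures with a first-order interpretation in `(ℕ, =)`, with parameters.
(2) Closed clones that contain a tame action of the permutation group of `ℕ`: finitely many orbits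
and finite supports.
(3) Closed clones on `ℕ` that contain all permutations preserving a finite colouring of `ℕ`.
(4) The question: structures on `ℕ` that are first-order definable in `(ℕ, =)`. -/
theorem result :
    -- (1)
    (∀ (Ω : Type) (A : Set (Σ k : ℕ, Set (Fin k → Ω))), Nonempty (Interpretation A) →
      (Pol A).Closed ∧ ∀ Y : Type u, AutoHomeo (Pol A) Y ↔ (Finite Ω ∨ #Y < 𝔠)) ∧
    -- (2)
    (∀ (Ω : Type) [MulAction (Equiv.Perm ℕ) Ω], Tame Ω → ∀ C : Clone Ω, C.Closed →
      (∀ σ : Equiv.Perm ℕ, (fun x : Fin 1 → Ω => σ • x 0) ∈ C.ops 0) →
      ∀ Y : Type u, AutoHomeo C Y ↔ (Finite Ω ∨ #Y < 𝔠)) ∧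
    -- (3)
    (∀ (k : ℕ) (c : ℕ → Fin k) (C : Clone ℕ), C.Closed →
      (∀ π : Equiv.Perm ℕ, (∀ x, c (π x) = c x) →
        (fun x : Fin 1 → ℕ => π (x 0)) ∈ C.ops 0) →
      ∀ Y : Type u, AutoHomeo C Y ↔ #Y < 𝔠) ∧
    -- (4)
    ∀ A : Set (Σ k : ℕ, Set (Fin k → ℕ)), (∀ R ∈ A, EqDefinable ∅ R.2) →
      (Pol A).Closed ∧ AutoHomeo (Pol A) ℕ ∧
        ∀ Y : Type u, AutoHomeo (Pol A) Y ↔ #Y < 𝔠 := by
  refine ⟨?_, ?_, ?_, ?_⟩
  · rintro Ω A ⟨I⟩
    exact interp_iff I
  · intro Ω _ hT C hC hS Y
    exact tame_iff hT hC hS Y
  · intro k c C hC hS Y
    exact colour_iff c hC hS Y
  · intro A hA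
    refine ⟨(definable_iff.{0} hA).1, ((definable_iff.{0} hA).2 ℕ).2 ?_, (definable_iff.{u} hA).2⟩
    rw [Cardinal.mk_nat]
    exact Cardinal.aleph0_lt_continuum

end Pool.Agent.Results.MP_0c3240_lc.InterpretableInEquality
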